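import Pool.Agent.Helper47.ME.Goals

/-! Packet ME-EQ3: the equality case of Makai's conjecture in dimension 3, from LIM, DII, GEZE. -/

open MeasureTheory Set Filter Topology
open scoped ENNReal Quaternion
open Pool.Agent.Helper47.AQ
open Pool.Agent.Helper72.MK
open Pool.Agent.Helper47.ME

namespace Pool.Agent.Helper56.ME

theorem eq3 (h1 : LIMStmt) (h2 : DIIStmt) (h3 : GEZEStmt) : EQ3Stmt := by
  intro K hK hF
  obtain ⟨t, g, u, ht, hg, hQ, a1, a2, a3, a4, hz⟩ := h1 K hK hF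
  have hd : (u + (1 / 2 : ℝ) • zp K t g) - (u - (1 / 2 : ℝ) • zp K t g) = zp K t g := by
    module
  obtain ⟨p, hp, hp1⟩ := (h2 K hK).2.2 _ a1 _ a2 (by rw [hd]; exact hz)
  rw [hd] at hp1
  exact h3 K hK hF t ht g hg hQ u a1 a2 a3 a4 p hp hp1

end Pool.Agent.Helper56.ME
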